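import Pool.Agent.Lib.MP_decea1_gt_F.Main
import Pool.Agent.Lib.MP_decea1_gt_B.Wall
import Pool.Agent.Lib.MP_decea1_gt_D.Final
import Pool.Agent.Lib.MP_decea1_gt_E.FromC
import Pool.Agent.Lib.MP_decea1_gt_G.Moves

/-!
# MP_decea1_gt: every quasimorphism on `Diff₀(S³, vol)` is at bounded distance from a homomorphism
-/

set_option autoImplicit false

open MeasureTheory
open scoped Manifold ContDiff

namespace Pool.Agent.Results.MP_decea1_gt.NoQuasimorphisms

/-- the sphere `{x : ‖x‖ = 1}` in `ℝ⁴` -/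
abbrev S3 : Type := Metric.sphere (0 : EuclideanSpace ℝ (Fin 4)) 1

/-- The model space `ℝ³` has the right dimension (used by Mathlib's charts of the sphere). -/
instance fact4 : Fact (Module.finrank ℝ (EuclideanSpace ℝ (Fin 4)) = 3 + 1) := ⟨by simp⟩

/-- the smooth diffeomorphisms of `S³` -/
abbrev DiffS3 : Type := S3 ≃ₘ⟮𝓡 3, 𝓡 3⟯ S3

/-- the volume of the round sphere -/
noncomputable abbrev vol : Measure S3 := (volume : Measure (EuclideanSpace ℝ (Fin 4))).toSphere

/-- `F` is a smooth isotopy through volume preserving diffeomorphisms, starting at the identity. -/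
structure IsIsotopy (F : ℝ → DiffS3) : Prop where
  smooth : ContMDiff (𝓘(ℝ, ℝ).prod (𝓡 3)) (𝓡 3) ∞ (fun p : ℝ × S3 => F p.1 p.2)
  zero : F 0 = Diffeomorph.refl (𝓡 3) S3 ∞
  preserves : ∀ t, MeasurePreserving (F t) vol vol

theorem mem_iff (e : Equiv.Perm S3) :
    (∃ F : ℝ → DiffS3, IsIsotopy F ∧ (F 1).toEquiv = e) ↔ Pool.Agent.QM59.InGS e := by
  constructor
  · rintro ⟨F, hF, rfl⟩
    refine ⟨F 1, ⟨fun p => F p.1 p.2, hF.smooth, fun x => ?_, fun x => rfl, fun t => ?_⟩,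
      fun x => rfl⟩
    · show F 0 x = x
      rw [hF.zero]
      rfl
    · exact ⟨F t, fun x => rfl, hF.preserves t⟩
  · rintro ⟨f, ⟨F, hF, h0, h1, ht⟩, he⟩
    choose g hg hm using ht
    refine ⟨g, ⟨?_, ?_, hm⟩, ?_⟩
    · have : (fun p : ℝ × S3 => g p.1 p.2) = F := by
        funext p
        exact hg p.1 p.2
      rw [this]
      exact hF
    · ext x
      rw [hg, h0]
      rfl
    · apply Equiv.ext
      intro x
      show g 1 x = e x
      rw [hg, h1, he]

/-- The group `Diff₀(S³, vol)`: the bijections of `S³` which are the time one map of a smooth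
isotopy through volume preserving diffeomorphisms, with composition. -/
def Diff0 : Subgroup (Equiv.Perm S3) where
  carrier := {e | ∃ F : ℝ → DiffS3, IsIsotopy F ∧ (F 1).toEquiv = e}
  one_mem' := (mem_iff 1).mpr Pool.Agent.QM59.InGS.one
  mul_mem' := fun {a b} ha hb =>
    (mem_iff (a * b)).mpr (((mem_iff a).mp ha).mul ((mem_iff b).mp hb))
  inv_mem' := fun {a} ha => (mem_iff a⁻¹).mpr ((mem_iff a).mp ha).inv

/-- `φ` is a quasimorphism on the group `G` with defect at most `D`. -/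
def IsQuasimorphism {G : Type} [Group G] (φ : G → ℝ) (D : ℝ) : Prop :=
  ∀ g h : G, |φ (g * h) - φ g - φ h| ≤ D

/-- the smooth diffeomorphism underlying an element of the group -/
noncomputable def dif (e : Diff0) : DiffS3 := e.2.choose 1

theorem dif_toEquiv (e : Diff0) : (dif e).toEquiv = e.1 := e.2.choose_spec.2

theorem dif_mem (f : DiffS3) (h : Pool.Agent.QM59.PS f) : f.toEquiv ∈ Diff0 :=
  (mem_iff f.toEquiv).mpr ⟨f, h, fun _ => rfl⟩

theorem dif_PS (e : Diff0) : Pool.Agent.QM59.PS (dif e) := by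
  obtain ⟨f, hf, h⟩ := (mem_iff e.1).mp e.2
  have h1 : dif e = f := by
    apply Diffeomorph.toEquiv_injective
    rw [dif_toEquiv]
    exact Equiv.ext h
  rw [h1]
  exact hf

theorem hom_close (φ : Diff0 → ℝ) (D : ℝ) (hφ : IsQuasimorphism φ D) :
    ∃ ψ : Diff0 → ℝ, (∀ g h, ψ (g * h) = ψ g + ψ h) ∧ ∀ g, |φ g - ψ g| ≤ D := by
  classical
  obtain ⟨ψ, h1, h2⟩ := Pool.Agent.QM59.exists_hom_close
    (fun _ _ _ hΓ hφ => Pool.Agent.QM59.EE.theoremM' hΓ hφ (Pool.Agent.QM59.D.dFin hΓ hφ))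
    (fun _ _ _ hΓ hφ => Pool.Agent.QM59.wall hΓ hφ) Pool.Agent.QM59.G.moves
    (fun f => if h : Pool.Agent.QM59.PS f then φ ⟨f.toEquiv, dif_mem f h⟩ else 0) D (by
      intro f g hf hg
      rw [dif_pos hf, dif_pos hg, dif_pos (hf.trans hg)]
      exact hφ ⟨f.toEquiv, dif_mem f hf⟩ ⟨g.toEquiv, dif_mem g hg⟩)
  refine ⟨fun e => ψ (dif e), fun g h => ?_, fun g => ?_⟩
  · have h3 : dif (g * h) = (dif h).trans (dif g) := by
      apply Diffeomorph.toEquiv_injective
      rw [dif_toEquiv]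
      show (g * h).1 = (dif g).toEquiv * (dif h).toEquiv
      rw [dif_toEquiv, dif_toEquiv]
      rfl
    show ψ (dif (g * h)) = _
    rw [h3]
    exact h1 _ _ (dif_PS g) (dif_PS h)
  · have h3 := h2 (dif g) (dif_PS g)
    rw [dif_pos (dif_PS g)] at h3
    have h4 : (⟨(dif g).toEquiv, dif_mem _ (dif_PS g)⟩ : Diff0) = g :=
      Subtype.ext (dif_toEquiv g)
    rw [h4] at h3
    exact h3

/-- Every quasimorphism on `Diff₀(S³, vol)` is at bounded distance (at most its defect) from a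
homomorphism, and every homogeneous quasimorphism on it is a homomorphism. -/
theorem result :
    (∀ (φ : Diff0 → ℝ) (D : ℝ), IsQuasimorphism φ D →
      ∃ ψ : Diff0 → ℝ, (∀ g h, ψ (g * h) = ψ g + ψ h) ∧ ∀ g, |φ g - ψ g| ≤ D) ∧
    (∀ (φ : Diff0 → ℝ) (D : ℝ), IsQuasimorphism φ D →
      (∀ (g : Diff0) (n : ℕ), φ (g ^ n) = n * φ g) → ∀ g h, φ (g * h) = φ g + φ h) := by
  refine ⟨hom_close, fun φ D hφ hhom => ?_⟩
  obtain ⟨ψ, hψ, hc⟩ := hom_close φ D hφ
  have hψn : ∀ (g : Diff0) (n : ℕ), ψ (g ^ n) = n * ψ g := by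
    intro g n
    induction n with
    | zero =>
      have h1 := hψ 1 1
      rw [mul_one] at h1
      rw [pow_zero, Nat.cast_zero, zero_mul]
      linarith
    | succ n ih =>
      rw [pow_succ, hψ, ih]
      push_cast
      ring
  have hD : 0 ≤ D := (abs_nonneg _).trans (hc 1)
  have heq : ∀ g, φ g = ψ g := by
    intro g
    by_contra hne
    have hpos : 0 < |φ g - ψ g| := abs_pos.mpr (sub_ne_zero.mpr hne)
    obtain ⟨n, hn⟩ := exists_nat_gt (D / |φ g - ψ g|)
    have h1 := hc (g ^ n)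
    rw [hhom, hψn, ← mul_sub, abs_mul, Nat.abs_cast] at h1
    have h2 : D < n * |φ g - ψ g| := by
      rwa [div_lt_iff₀ hpos] at hn
    linarith
  intro g h
  rw [heq, heq, heq, hψ]

end Pool.Agent.Results.MP_decea1_gt.NoQuasimorphisms
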